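import Pool.Agent.Y160.SL.ClsV

/-!
# Examples of members of the class
-/

set_option autoImplicit false
set_option linter.all false

open Polynomial

namespace Pool.Agent.Y160.T8

open Pool.Agent.Y160.SL (atZero powT eqOf IndepMod Redei IsTowerData)

variable {k : Type} [Field k] {r : ℕ}

/-- `v_j = G_j(A)`. -/
noncomputable def exV (G : Fin (r + 1) → k[X]) (A : k[X][X]) : Fin (r + 1) → k[X][X] :=
  fun j => aeval A (G j)

/-- `T = e Y + b(A)`. -/
noncomputable def exT (b : k[X]) (e : k) (A Y : k[X][X]) : k[X][X] := C (C e) * Y + aeval A b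

/-- `y = c t ^ n + w(x)`. -/
noncomputable def exY (w : k[X]) (c : k) (n : ℕ) : k[X][X] :=
  C (C c * X ^ n) + aeval (X : k[X][X]) w

/-- `x + u(y)`. -/
noncomputable def exA (u w : k[X]) (c : k) (n : ℕ) : k[X][X] := X + aeval (exY w c n) u

theorem exV_map (φ : k[X][X] →ₐ[k] k[X][X]) (G : Fin (r + 1) → k[X]) (A : k[X][X]) :
    (fun j => φ (exV G A j)) = exV G (φ A) :=
  funext fun j => (aeval_algHom_apply φ A (G j)).symm

theorem exT_map (φ : k[X][X] →ₐ[k] k[X][X]) (b : k[X]) (e : k) (A Y : k[X][X]) :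
    φ (exT b e A Y) = exT b e (φ A) (φ Y) := by
  unfold exT
  rw [map_add, map_mul, aeval_algHom_apply]
  congr 2
  exact φ.commutes e

/-- The change of coordinates as a homomorphism of algebras. -/
noncomputable def shr (c : k) (b : k[X]) : k[X][X] →ₐ[k] k[X][X] :=
  (aeval (C (C c) * X + C b) : k[X][X] →ₐ[k[X]] k[X][X]).restrictScalars k

theorem shr_apply (c : k) (b : k[X]) (P : k[X][X]) : shr c b P = P.comp (C (C c) * X + C b) := rfl

theorem shr_X (c : k) (b : k[X]) : shr c b X = C (C c) * X + C b := by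
  rw [shr_apply, X_comp]

theorem shr_C (c : k) (b a : k[X]) : shr c b (C a) = C a := by
  rw [shr_apply, C_comp]

/-- The exchange of `x` and `t` as a homomorphism of algebras. -/
noncomputable def swp : k[X][X] →ₐ[k] k[X][X] := (Bivariate.swap (R := k)).toAlgHom

theorem swp_apply (P : k[X][X]) : swp P = Bivariate.swap P := rfl

theorem swp_X : swp (X : k[X][X]) = C X := Bivariate.swap_Y

theorem swp_CX : swp (C X : k[X][X]) = X := Bivariate.swap_X

theorem swp_CC (c : k) : swp (C (C c) : k[X][X]) = C (C c) := Bivariate.swap_C_C c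

theorem swp_C (u : k[X]) : swp (C u : k[X][X]) = aeval (X : k[X][X]) u := by
  have h1 : (C u : k[X][X]) = aeval (C X : k[X][X]) u := by
    have h2 := aeval_algebraMap_apply k[X][X] (X : k[X]) u
    rw [aeval_X_left_apply] at h2
    exact h2.symm
  rw [h1, ← aeval_algHom_apply, swp_CX]

section mem

variable {p q : ℕ} {G : Fin (r + 1) → k[X]} {b : k[X]} {e : k} {A Y : k[X][X]}

theorem step_swap (h : IsTowerData p q r (exV G A) (exT b e A Y)) :
    IsTowerData p q r (exV G (swp A)) (exT b e (swp A) (swp Y)) := by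
  rw [← exV_map, ← exT_map]
  exact IsTowerData.swap _ _ h

theorem step_shear {c : k} (hc : c ≠ 0) (u : k[X]) (h : IsTowerData p q r (exV G A) (exT b e A Y)) :
    IsTowerData p q r (exV G (shr c u A)) (exT b e (shr c u A) (shr c u Y)) := by
  rw [← exV_map, ← exT_map]
  exact IsTowerData.shear _ _ c u hc h

theorem mem0 (hG : ∀ j, (G j).Monic ∧ Irreducible (G j) ∧ (G j).Separable)
    (hGi : Function.Injective G) (hcop : p.Coprime (∏ j, G j).natDegree) (hR : Redei p G)
    (b : k[X]) (he : e ≠ 0) : IsTowerData p q r (exV G (C X)) (exT b e (C X) X) := by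
  have h := IsTowerData.shear _ _ e b he (IsTowerData.base (q := q) G hG hGi hcop hR)
  have h1 : ∀ u : k[X], (C u : k[X][X]) = aeval (C X : k[X][X]) u := by
    intro u
    have h2 := aeval_algebraMap_apply k[X][X] (X : k[X]) u
    rw [aeval_X_left_apply] at h2
    exact h2.symm
  have e1 : (fun j => (C (G j) : k[X][X]).comp (C (C e) * X + C b)) = exV G (C X) := by
    funext j
    rw [C_comp, h1]
    rfl
  have e2 : (X : k[X][X]).comp (C (C e) * X + C b) = exT b e (C X) X := by
    rw [X_comp, exT, ← h1]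
  rw [e1, e2] at h
  exact h

theorem mem1 (hG : ∀ j, (G j).Monic ∧ Irreducible (G j) ∧ (G j).Separable)
    (hGi : Function.Injective G) (hcop : p.Coprime (∏ j, G j).natDegree) (hR : Redei p G)
    (b u w : k[X]) (he : e ≠ 0) {c : k} (hc : c ≠ 0) :
    IsTowerData p q r (exV G (exA u w c 1)) (exT b e (exA u w c 1) (exY w c 1)) := by
  have h0 := mem0 (q := q) hG hGi hcop hR b he
  have h1 := step_swap h0
  rw [swp_X, swp_CX] at h1
  have h2 := step_shear one_ne_zero u h1
  rw [shr_X, shr_C, C_1, C_1, one_mul] at h2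
  have h3 := step_swap h2
  rw [map_add, swp_X, swp_CX, swp_C] at h3
  have h4 := step_shear hc w h3
  rw [map_add, shr_C, ← aeval_algHom_apply, shr_X] at h4
  have h5 := step_swap h4
  rw [map_add, ← aeval_algHom_apply, map_add, map_mul, swp_X, swp_CX, swp_CC, swp_C] at h5
  have e1 : (C (C c) * C X + aeval (X : k[X][X]) w : k[X][X]) = exY w c 1 := by
    rw [exY, pow_one, C_mul]
  rw [e1] at h5
  exact h5

/-- The substitution `t ↦ t ^ p` as a homomorphism of algebras. -/
noncomputable def pwt (p : ℕ) : k[X][X] →ₐ[k] k[X][X] := mapAlgHom (expand k p)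

theorem pwt_Y (w : k[X]) (c : k) (n : ℕ) : pwt p (exY w c n) = exY w c (n * p) := by
  have h1 : pwt p (X : k[X][X]) = X := by
    rw [pwt, coe_mapAlgHom, map_X]
  have h2 : pwt p (C (C c * X ^ n) : k[X][X]) = C (C c * X ^ (n * p)) := by
    rw [pwt, coe_mapAlgHom, map_C]
    congr 1
    show expand k p (C c * X ^ n) = _
    rw [map_mul, map_pow, expand_C, expand_X, ← pow_mul, mul_comm n p]
  rw [exY, map_add, ← aeval_algHom_apply, h1, h2, exY]

theorem pwt_A (u w : k[X]) (c : k) (n : ℕ) : pwt p (exA u w c n) = exA u w c (n * p) := by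
  have h1 : pwt p (X : k[X][X]) = X := by
    rw [pwt, coe_mapAlgHom, map_X]
  rw [exA, map_add, ← aeval_algHom_apply, h1, pwt_Y, exA]

/-- The substitution `t = 0` as a homomorphism of algebras. -/
noncomputable def zer : k[X][X] →ₐ[k] k[X] := mapAlgHom (aeval (0 : k) : k[X] →ₐ[k] k)

theorem zer_apply (P : k[X][X]) : zer P = atZero P := rfl

theorem zer_X : zer (X : k[X][X]) = X := by
  rw [zer, coe_mapAlgHom, map_X]

theorem zer_Y (w : k[X]) (c : k) {n : ℕ} (hn : n ≠ 0) : zer (exY w c n) = w := by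
  have h2 : zer (C (C c * X ^ n) : k[X][X]) = 0 := by
    rw [zer, coe_mapAlgHom, map_C]
    show C (aeval (0 : k) (C c * X ^ n)) = 0
    rw [map_mul, map_pow, aeval_X, zero_pow hn, mul_zero, C_0]
  rw [exY, map_add, ← aeval_algHom_apply, zer_X, h2, zero_add, aeval_X_left_apply]

theorem zer_A (u w : k[X]) (c : k) {n : ℕ} (hn : n ≠ 0) : zer (exA u w c n) = X + u.comp w := by
  rw [exA, map_add, ← aeval_algHom_apply, zer_X, zer_Y w c hn]
  rfl

/-- **Examples**: with `y = c t ^ (p ^ d) + w(x)` the polynomials `v_j = G_j(x + u(y))` and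
`T = e y + b(x + u(y))` belong to the class for all `d`, if the conditions at `t = 0` are satisfied. -/
theorem ex_mem (hp : p.Prime) (hG : ∀ j, (G j).Monic ∧ Irreducible (G j) ∧ (G j).Separable)
    (hGi : Function.Injective G) (hcop : p.Coprime (∏ j, G j).natDegree) (hR : Redei p G)
    (b u w : k[X]) (he : e ≠ 0) {c : k} (hc : c ≠ 0) {f₀ : k[X]}
    (hf : f₀ = ∏ j, (G j).comp (X + u.comp w) + (C e * w + b.comp (X + u.comp w)) ^ q)
    (h1 : Irreducible f₀) (h2 : f₀.Separable) (h3 : p.Coprime f₀.natDegree)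
    (h4 : ∀ j, ((G j).comp (X + u.comp w)).Separable ∧ 0 < ((G j).comp (X + u.comp w)).natDegree)
    (h5 : IndepMod p f₀ fun j => (G j).comp (X + u.comp w)) (d : ℕ) :
    IsTowerData p q r (exV G (exA u w c (p ^ d)))
      (exT b e (exA u w c (p ^ d)) (exY w c (p ^ d))) := by
  induction d with
  | zero => rw [pow_zero]; exact mem1 hG hGi hcop hR b u w he hc
  | succ d ih =>
    have hn : p ^ d ≠ 0 := pow_ne_zero _ hp.ne_zero
    have eA := zer_A u w c hn
    have eY := zer_Y w c hn
    have eV : ∀ j, atZero (exV G (exA u w c (p ^ d)) j) = (G j).comp (X + u.comp w) := by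
      intro j
      rw [← zer_apply, exV, ← aeval_algHom_apply, eA]
      rfl
    have eT : atZero (exT b e (exA u w c (p ^ d)) (exY w c (p ^ d))) =
        C e * w + b.comp (X + u.comp w) := by
      have h6 : zer (C (C e) : k[X][X]) = C e := by
        rw [zer, coe_mapAlgHom, map_C]
        show C (aeval (0 : k) (C e)) = _
        rw [aeval_C]
        rfl
      rw [← zer_apply, exT, map_add, map_mul, ← aeval_algHom_apply, eA, eY, h6]
      rfl
    have eF : atZero (eqOf q (exV G (exA u w c (p ^ d)))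
        (exT b e (exA u w c (p ^ d)) (exY w c (p ^ d)))) = f₀ := by
      rw [← zer_apply, eqOf, map_add, map_prod, map_pow, hf]
      simp only [zer_apply]
      rw [eT]
      simp only [eV]
    have h := IsTowerData.root _ _ (by rw [eF]; exact h1) (by rw [eF]; exact h2)
      (by rw [eF]; exact h3) (by simp only [eV]; exact h4) (by rw [eF]; simp only [eV]; exact h5) ih
    have e1 : (fun j => powT p (exV G (exA u w c (p ^ d)) j)) =
        fun j => pwt p (exV G (exA u w c (p ^ d)) j) := rfl
    have e2 : powT p (exT b e (exA u w c (p ^ d)) (exY w c (p ^ d))) =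
        pwt p (exT b e (exA u w c (p ^ d)) (exY w c (p ^ d))) := rfl
    rw [e1, e2, exV_map, exT_map, pwt_A, pwt_Y, ← pow_succ] at h
    exact h

end mem

end Pool.Agent.Y160.T8
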