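import Pool.Agent.Y160.T8.Stm

/-!
# Project T8: independence modulo `q`-th powers, statement
-/

set_option autoImplicit false
set_option linter.all false

open Polynomial IsDedekindDomain

namespace Pool.Agent.Y160.T8

/-- Independence modulo `p ^ (s + 1)`-th powers. -/
def St_indq : Prop := ∀ (p s r : ℕ) (k K N R : Type) [Field k] [Field K] [Algebra k[X] K]
  [IsFractionRing k[X] K] [Field N] [Algebra K N] [FiniteDimensional K N] [CommRing R]
  [IsDedekindDomain R] [Algebra k R] [Algebra R N] [IsFractionRing R N] (ζ : k)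
  (a : Fin (r + 1) → R), p.Prime → IsPrimitiveRoot ζ (p ^ (s + 1)) →
  p.Coprime (Module.finrank K N) →
  (∀ c : k, algebraMap R N (algebraMap k R c) = algebraMap K N (algebraMap k[X] K (C c))) →
  (∀ j, a j ≠ 0) → IndV p k R a → ∀ (c : k) (e : Fin (r + 1) → ℕ) (w : N), c ≠ 0 →
  e (Fin.last r) = 0 → algebraMap R N (algebraMap k R c * ∏ j, a j ^ e j) = w ^ (p ^ (s + 1)) →
  ∀ j, p ^ (s + 1) ∣ e j

end Pool.Agent.Y160.T8
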