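import Pool.Agent.Y160.T8.Tower
import Pool.Agent.Y160.T8.Stm2
import Pool.Agent.Y160.T7.Main
import Pool.Agent.Y160.RK.FamGen

/-!
# The conclusions for the curves of the class of positive rank
-/

set_option autoImplicit false
set_option linter.all false

open Polynomial IsDedekindDomain WithZero
open scoped Classical

namespace Pool.Agent.Y160.T8

open Pool.Agent.TH115.GD (IsTower Sep)
open Pool.Agent.Y160.FT
open Pool.Agent.Y160.SQ (Good Jac sg Rt)
open Pool.Agent.Y160.SE (IsPw SmoothC)
open Pool.Agent.Y160.SL (atZero powT eqOf IsTowerData IsBasisAt Concl)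
open Pool.Agent.Y160.RK (ptCl spanD gen_iter mem_spanD sum_pts rank_lin)

section cop

variable {k : Type} [Field k] {p q r : ℕ}

/-- The polynomials `v_j` are coprime. -/
theorem cop_data {v : Fin (r + 1) → k[X][X]} {T : k[X][X]} (hv : IsTowerData p q r v T) :
    ∀ i j, i ≠ j → IsCoprime (v i) (v j) := by
  induction hv with
  | base G h1 h2 h3 h4 =>
    intro i j hij
    have hn : ¬ G i ∣ G j := fun hd => hij (h2 (eq_of_monic_of_associated (h1 i).1 (h1 j).1
      ((h1 i).2.1.associated_of_dvd (h1 j).2.1 hd)))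
    exact (((h1 i).2.1.coprime_iff_not_dvd).2 hn).map (C : k[X] →+* k[X][X])
  | swap v T _ ih =>
    intro i j hij
    exact (ih i j hij).map ((Bivariate.swap (R := k)) : k[X][X] →+* k[X][X])
  | shear v T c b hc _ ih =>
    intro i j hij
    exact (ih i j hij).map (compRingHom (C (C c) * X + C b))
  | root v T h1 h2 h3 h4 h5 _ ih =>
    intro i j hij
    exact (ih i j hij).map (mapRingHom (expand k p : k[X] →+* k[X]))

/-- A multiset with given multiplicities. -/
theorem exists_ms {n : ℕ} (e : Fin n → ℕ) : ∃ S : Multiset (Fin n),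
    ∀ (M : Type) [CommMonoid M] (g : Fin n → M), (S.map g).prod = ∏ j, g j ^ e j := by
  refine ⟨∑ j, Multiset.replicate (e j) j, fun M _ g => ?_⟩
  have h1 : ∀ s : Finset (Fin n), ((∑ j ∈ s, Multiset.replicate (e j) j).map g).prod =
      ∏ j ∈ s, g j ^ e j := by
    intro s
    induction s using Finset.induction_on with
    | empty => rw [Finset.sum_empty, Multiset.map_zero, Multiset.prod_zero, Finset.prod_empty]
    | insert j s hj ih =>
      rw [Finset.sum_insert hj, Finset.prod_insert hj, Multiset.map_add, Multiset.prod_add, ih,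
        Multiset.map_replicate, Multiset.prod_replicate]
  exact h1 _

end cop

section pow

variable {k R : Type} [Field k] [CommRing R] [IsDedekindDomain R] [Algebra k R] {p r : ℕ}
  {a : Fin (r + 1) → R}

/-- The valuation of `a i` is a power. -/
theorem val_a {τ : R} {Q : ℕ} (hQ : Q ≠ 0) (hc : ∀ i j, i ≠ j → IsCoprime (a i) (a j))
    (hprod : ∏ j, a j = -τ ^ Q) (L : Type) [Field L] [Algebra R L] [IsFractionRing R L]
    (P : HeightOneSpectrum R) (i : Fin (r + 1)) :
    IsPw Q (P.valuation L (algebraMap R L (a i))) := by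
  rw [HeightOneSpectrum.valuation_of_algebraMap]
  by_cases h : P.intValuation (a i) = 1
  · exact ⟨1, by rw [h, one_pow]⟩
  · have h1 : ∀ j, j ≠ i → P.intValuation (a j) = 1 := by
      intro j hj
      obtain ⟨x, y, hxy⟩ := hc i j (Ne.symm hj)
      by_contra hj1
      have hlt : P.intValuation (a j) < 1 := lt_of_le_of_ne (P.intValuation_le_one _) hj1
      have hlt' : P.intValuation (a i) < 1 := lt_of_le_of_ne (P.intValuation_le_one _) h
      have h2 : P.intValuation (x * a i + y * a j) < 1 := by
        refine lt_of_le_of_lt (P.intValuation.map_add _ _) (max_lt ?_ ?_)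
        · rw [map_mul]
          exact lt_of_le_of_lt (mul_le_of_le_one_left' (P.intValuation_le_one _)) hlt'
        · rw [map_mul]
          exact lt_of_le_of_lt (mul_le_of_le_one_left' (P.intValuation_le_one _)) hlt
      rw [hxy, map_one] at h2
      exact lt_irrefl _ h2
    have h2 := congrArg P.intValuation hprod
    rw [map_prod, Finset.prod_eq_single i (fun j _ hj => h1 j hj)
      (fun hn => absurd (Finset.mem_univ i) hn), Valuation.map_neg, map_pow] at h2
    exact ⟨_, h2⟩

/-- From `p`-th powers to `p ^ n`-th powers. -/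
theorem propV_pow (hp : p ≠ 0) {s : ℕ} {τ : R} (hV : PropV p k R a)
    (hc : ∀ i j, i ≠ j → IsCoprime (a i) (a j)) (hprod : ∏ j, a j = -τ ^ (p ^ s))
    (ha0 : ∀ j, a j ≠ 0)
    (L : Type) [Field L] [Algebra R L] [IsFractionRing R L] :
    ∀ n, n ≤ s → ∀ z : L, z ≠ 0 →
    (∀ P : HeightOneSpectrum R, IsPw (p ^ n) (P.valuation L z)) →
      ∃ (c : k) (e : Fin (r + 1) → ℕ) (w : L), c ≠ 0 ∧ w ≠ 0 ∧
        z = algebraMap R L (algebraMap k R c * ∏ j, a j ^ e j) * w ^ (p ^ n) := by
  intro n
  induction n with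
  | zero =>
    intro _ z hz _
    exact ⟨1, 0, z, one_ne_zero, hz, by simp⟩
  | succ n ih =>
    intro hn z hz hP
    obtain ⟨c, e, w, hc0, hw, ez⟩ := hV L z hz (fun P => by
      obtain ⟨δ, hδ⟩ := hP P
      exact ⟨δ ^ p ^ n, by rw [hδ, ← pow_mul, ← pow_succ]⟩)
    have hinj := IsFractionRing.injective R L
    have haL : ∀ j, algebraMap R L (a j) ≠ 0 := fun j h => ha0 j (hinj (by rw [h, map_zero]))
    have hpr : ∏ j, algebraMap R L (a j) ^ e j ≠ 0 :=
      Finset.prod_ne_zero_iff.2 fun j _ => pow_ne_zero _ (haL j)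
    obtain ⟨c', e', w', hc', hw', ew⟩ := ih (by omega) w hw (fun P => by
      obtain ⟨δ, hδ⟩ := hP P
      have h1 : ∀ j, ∃ γ : WithZero (Multiplicative ℤ), γ ≠ 0 ∧
          P.valuation L (algebraMap R L (a j)) = γ ^ (p ^ (n + 1)) := by
        intro j
        obtain ⟨γ, hγ⟩ := val_a (a := a) (pow_ne_zero s hp) hc hprod L P j
        have hγ0 : γ ≠ 0 := by
          rintro rfl
          rw [zero_pow (pow_ne_zero s hp), Valuation.zero_iff] at hγ
          exact haL j hγ
        refine ⟨γ ^ (p ^ (s - (n + 1))), pow_ne_zero _ hγ0, ?_⟩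
        rw [hγ, ← pow_mul, ← pow_add]
        congr 2
        omega
      choose γ hγ0 hγ using h1
      refine ⟨δ / ∏ j, γ j ^ e j, pw_inj hp ?_⟩
      have h2 := congrArg (P.valuation L) ez
      rw [map_mul (algebraMap R L), map_prod, map_mul, map_mul, map_pow, val_const P hc0, one_mul,
        hδ, map_prod] at h2
      simp only [map_pow, hγ] at h2
      have h3 : ∏ j, (γ j ^ p ^ (n + 1)) ^ e j = (∏ j, γ j ^ e j) ^ (p ^ (n + 1)) := by
        rw [← Finset.prod_pow]
        refine Finset.prod_congr rfl fun j _ => ?_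
        rw [← pow_mul, ← pow_mul, mul_comm]
      rw [h3] at h2
      have h4 : (∏ j, γ j ^ e j) ≠ 0 :=
        Finset.prod_ne_zero_iff.2 fun j _ => pow_ne_zero _ (hγ0 j)
      rw [← pow_mul, ← pow_succ, div_pow, eq_div_iff (pow_ne_zero _ h4), mul_comm]
      exact h2.symm)
    refine ⟨c * c' ^ p, e + fun j => p * e' j, w', mul_ne_zero hc0 (pow_ne_zero _ hc'), hw', ?_⟩
    have h5 : ∏ j, a j ^ (e + fun j => p * e' j) j = (∏ j, a j ^ e j) * (∏ j, a j ^ e' j) ^ p := by
      rw [← Finset.prod_pow, ← Finset.prod_mul_distrib]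
      refine Finset.prod_congr rfl fun j _ => ?_
      rw [Pi.add_apply, pow_add, ← pow_mul, mul_comm p]
    rw [h5, ez, ew, mul_pow, ← pow_mul, ← pow_succ, map_mul (algebraMap R L), map_mul (algebraMap R L),
      map_mul (algebraMap R L), map_mul (algebraMap R L), map_pow (algebraMap R L), map_mul (algebraMap k R),
      map_pow (algebraMap k R), map_mul (algebraMap R L), map_pow (algebraMap R L)]
    ring

end pow

section cont

variable {k K : Type} [Field k] [Field K] [Algebra k[X] K] [IsFractionRing k[X] K]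

/-- The function field of the curve. -/
theorem cont {Goal : Prop} {f : k[X][X]} (hmon : f.Monic) (hn : f.natDegree ≠ 0) {R : Type}
    [CommRing R] [IsDedekindDomain R] [Algebra k R] {u x : R} (hP : Pres u x f)
    (cont : ∀ (N : Type) [Field N] [Algebra K N]
      [Algebra k[X] N] [IsScalarTower k[X] K N] [Algebra R N] [IsFractionRing R N]
      [Algebra k[X] R] [IsScalarTower k[X] R N] [Algebra.IsIntegral k[X] R] (θ : N),
      aeval θ (f.map (algebraMap k[X] K)) = 0 → IntermediateField.adjoin K {θ} = ⊤ →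
      (∀ P : k[X][X], aeval θ (P.map (algebraMap k[X] K)) = algebraMap R N (ev u x P)) →
      (∀ c : k, algebraMap R N (algebraMap k R c) = algebraMap k[X] N (C c)) → Goal) :
    Goal := by
  have hsurj := hP.surj
  have hker := hP.ker
  -- the algebra structures
  let φ : k[X] →+* R := ((aeval u : k[X] →ₐ[k] R) : k[X] →+* R)
  letI : Algebra k[X] R := φ.toAlgebra
  haveI : IsDomain R := inferInstance
  have hinjR : Function.Injective (algebraMap k[X] R) := by
    rw [injective_iff_map_eq_zero]
    intro y hy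
    have h1 : eval₂ φ x (C y) = 0 := by rw [eval₂_C]; exact hy
    have h2 := (hker _).1 h1
    by_contra hy0
    have h3 := natDegree_le_of_dvd h2 (C_ne_zero.2 hy0)
    rw [natDegree_C] at h3
    exact hn (Nat.le_zero.1 h3)
  have hkX : ∀ y : k[X], algebraMap k[X] (FractionRing R) y = algebraMap R (FractionRing R) (φ y) :=
    fun y => IsScalarTower.algebraMap_apply k[X] R (FractionRing R) y
  have hinjN : Function.Injective (algebraMap k[X] (FractionRing R)) := by
    intro y y' h
    rw [hkX, hkX] at h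
    exact hinjR (IsFractionRing.injective R (FractionRing R) h)
  letI : Algebra K (FractionRing R) := (IsFractionRing.lift hinjN : K →+* FractionRing R).toAlgebra
  haveI : IsScalarTower k[X] K (FractionRing R) := IsScalarTower.of_algebraMap_eq fun y =>
    (IsFractionRing.lift_algebraMap hinjN y).symm
  have hroot : eval₂ φ x f = 0 := (hker _).2 dvd_rfl
  haveI : Algebra.IsIntegral k[X] R := by
    refine ⟨fun z => ?_⟩
    obtain ⟨P, rfl⟩ := hsurj z
    have hx : IsIntegral k[X] x := ⟨f, hmon, hroot⟩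
    have : eval₂ φ x P = aeval x P := rfl
    rw [this]
    exact adjoin_le_integralClosure hx (aeval_mem_adjoin_singleton k[X] x)
  let θ : FractionRing R := algebraMap R (FractionRing R) x
  have hθev : ∀ P : k[X][X], aeval θ (P.map (algebraMap k[X] K)) =
      algebraMap R (FractionRing R) (eval₂ φ x P) := by
    intro P
    rw [aeval_map_algebraMap]
    have h1 : algebraMap k[X] (FractionRing R) = (algebraMap R (FractionRing R)).comp φ :=
      RingHom.ext hkX
    rw [aeval_def, h1]
    exact (hom_eval₂ P φ (algebraMap R (FractionRing R)) x).symm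
  have hθ : aeval θ (f.map (algebraMap k[X] K)) = 0 := by
    rw [hθev, hroot, map_zero]
  have htop : IntermediateField.adjoin K {θ} = ⊤ := by
    rw [eq_top_iff]
    rintro z -
    have hR : ∀ r : R, algebraMap R (FractionRing R) r ∈ IntermediateField.adjoin K {θ} := by
      intro r
      obtain ⟨P, rfl⟩ := hsurj r
      rw [← hθev]
      exact IntermediateField.algebra_adjoin_le_adjoin K {θ}
        (aeval_mem_adjoin_singleton K θ)
    obtain ⟨a, b, hb, rfl⟩ := IsFractionRing.div_surjective (A := R) z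
    exact div_mem (hR a) (hR b)
  refine cont (FractionRing R) θ hθ htop hθev ?_
  intro c
  rw [hkX]
  congr 1
  show _ = aeval u (C c)
  rw [aeval_C]

end cont

section concl

variable {k k' K F : Type} [Field k] [Field k'] [Algebra k k'] [Field K] [Algebra k[X] K]
  [Field F] [Algebra k'[X] F] [IsFractionRing k'[X] F] [Algebra K F] [IsFractionRing k[X] K]

/-- The functions `a_j` are not zero. -/
theorem a_ne {R : Type} [CommRing R] [IsDomain R] [Algebra k R] {p r : ℕ} (hp : p.Prime)
    (hr : 0 < r) {a : Fin (r + 1) → R} (hN : IndV p k R a) (j : Fin (r + 1)) : a j ≠ 0 := by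
  intro hj
  have e1 := hN 1 (Pi.single j 1) 0 one_ne_zero (by
    have e2 : ∏ i, a i ^ (Pi.single j 1 : Fin (r + 1) → ℕ) i = a j := by
      rw [Finset.prod_eq_single j]
      · rw [Pi.single_eq_same, pow_one]
      · intro i _ hi
        rw [Pi.single_eq_of_ne hi, pow_zero]
      · intro h; exact absurd (Finset.mem_univ j) h
    rw [e2, map_one, one_mul, zero_pow hp.ne_zero, hj])
  obtain ⟨i, hi⟩ : ∃ i : Fin (r + 1), i ≠ j := by
    haveI : Nontrivial (Fin (r + 1)) := Fin.nontrivial_iff_two_le.2 (by omega)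
    exact exists_ne j
  have e3 := e1 i j
  rw [Pi.single_eq_of_ne hi, Pi.single_eq_same] at e3
  have e4 := (Nat.modEq_zero_iff_dvd.1 e3.symm)
  exact hp.one_lt.ne' (Nat.dvd_one.1 e4)

/-- All the conclusions. -/
theorem concl (hIq : St_indq) (hT : IsTower k k' K F) {p q s r : ℕ} (hp : p.Prime)
    (hq : q = p ^ (s + 1)) {ζ : k} (hζ : IsPrimitiveRoot ζ q) (hr : 0 < r)
    {v : Fin (r + 1) → k[X][X]} {T : k[X][X]} (hv : IsTowerData p q r v T)
    (hmon : (eqOf q v T).Monic) (hcop : p.Coprime (eqOf q v T).natDegree)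
    (hvm : ∀ j, (v j).Monic)
    {R : Type} [CommRing R] [IsDedekindDomain R] [Algebra k R] {t x : R}
    (hP : Pres t x (eqOf q v T)) (hV : PropV p k R (fun j => ev t x (v j)))
    (hN : IndV p k R (fun j => ev t x (v j)))
    (hsep : ((eqOf q v T).map (algebraMap k[X] K)).Separable) (hsm : SmoothC (eqOf q v T))
    (hirrV : ∀ j, Irreducible ((v j).map (algebraMap k[X] K)))
    (hirr : Irreducible (((eqOf q v T).map (algebraMap k[X] K)).map (algebraMap K F))) :
    Concl p q r k k' F ((eqOf q v T).map (algebraMap k[X] K)) := by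
  have hq0 : q ≠ 0 := by rw [hq]; exact pow_ne_zero _ hp.ne_zero
  haveI : NeZero q := ⟨hq0⟩
  haveI : IsDomain R := inferInstance
  have hn : (eqOf q v T).natDegree ≠ 0 := by
    intro h0
    rw [h0, Nat.coprime_zero_right] at hcop
    exact hp.one_lt.ne' hcop
  have hirrK : Irreducible ((eqOf q v T).map (algebraMap k[X] K)) :=
    Polynomial.Monic.irreducible_of_irreducible_map (algebraMap K F) _ (hmon.map _) hirr
  have hg := (SH.good_of hp (Nat.succ_pos s) hq hT hζ hmon hcop hsep).1
  have ha0 : ∀ j, ev t x (v j) ≠ 0 := a_ne hp hr hN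
  have hcopR : ∀ i j, i ≠ j → IsCoprime (ev t x (v i)) (ev t x (v j)) := fun i j hij =>
    (cop_data hv i j hij).map (evH t x)
  have hprod : ∏ j, ev t x (v j) = -(ev t x T) ^ (p ^ (s + 1)) := by
    have e1 : ev t x (eqOf q v T) = 0 := (hP.ker _).2 dvd_rfl
    unfold eqOf at e1
    rw [← evH_apply, map_add, map_prod, map_pow, hq] at e1
    exact eq_neg_of_add_eq_zero_left e1
  -- the polynomials over `K`
  obtain ⟨V, hVv⟩ : ∃ V : Fin (r + 1) → K[X], V = fun j => (v j).map (algebraMap k[X] K) :=
    ⟨_, rfl⟩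
  obtain ⟨TK, hTK⟩ : ∃ TK : K[X], TK = T.map (algebraMap k[X] K) := ⟨_, rfl⟩
  have hVj : ∀ j, V j = (v j).map (algebraMap k[X] K) := fun j => by rw [hVv]
  have hVirr : ∀ j, Irreducible (V j) := fun j => by rw [hVj]; exact hirrV j
  have hVi : Function.Injective V := by
    intro i j hij
    by_contra hne
    have h1 : IsCoprime (V i) (V j) := by
      rw [hVj, hVj]
      exact (cop_data hv i j hne).map (mapRingHom (algebraMap k[X] K))
    rw [← hij] at h1
    exact (hVirr i).not_isUnit (isCoprime_self.1 h1)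
  have hfT : (eqOf q v T).map (algebraMap k[X] K) - TK ^ q = ∏ j, V j := by
    unfold eqOf
    rw [Polynomial.map_add, Polynomial.map_prod, Polynomial.map_pow, hTK, hVv, add_sub_cancel_right]
  have hPp : ∀ j, Irreducible (V j) ∧ (V j).Monic ∧
      ¬ V j ∣ (eqOf q v T).map (algebraMap k[X] K) ∧
      V j ∣ (eqOf q v T).map (algebraMap k[X] K) - TK ^ q := by
    intro j
    refine ⟨hVirr j, by rw [hVj]; exact (hvm j).map _, ?_, ?_⟩
    · intro hd
      refine cont (K := K) hmon hn hP ?_
      intro N _ _ _ _ _ _ _ _ _ θ hθ htop hev hkN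
      have h3 := (hVirr j).associated_of_dvd hirrK hd
      obtain ⟨w, hw⟩ := h3.symm.dvd
      have h4 : aeval θ (V j) = 0 := by rw [hw, map_mul, hθ, zero_mul]
      rw [hVj, hev] at h4
      exact ha0 j (IsFractionRing.injective R N (by rw [h4, map_zero]))
    · rw [hfT]
      exact Finset.dvd_prod_of_mem _ (Finset.mem_univ j)
  -- the functions whose divisors are divisible by `q`
  have hfun : ∀ (N : Type) [Field N] [Algebra K N] [Algebra k[X] N] [IsScalarTower k[X] K N]
      [Algebra R N] [IsFractionRing R N] (θ : N),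
      (∀ P : k[X][X], aeval θ (P.map (algebraMap k[X] K)) = algebraMap R N (ev t x P)) →
      (∀ c : k, algebraMap R N (algebraMap k R c) = algebraMap k[X] N (C c)) →
      ∀ z : N, z ≠ 0 → (∀ v : HeightOneSpectrum R, IsPw q (v.valuation N z)) →
        ∃ (u : k) (g0 : N) (S : Multiset (Fin (r + 1))), u ≠ 0 ∧ g0 ≠ 0 ∧
          z = algebraMap k[X] N (C u) * g0 ^ q * aeval θ (S.map V).prod := by
    intro N _ _ _ _ _ _ θ hev hkN z hz hvz
    obtain ⟨c, e, w, hc, hw, ez⟩ := propV_pow (a := fun j => ev t x (v j)) hp.ne_zero hV hcopR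
      hprod ha0 N (s + 1) le_rfl z hz (by rw [← hq]; exact hvz)
    obtain ⟨S, hS⟩ := exists_ms e
    refine ⟨c, w, S, hc, hw, ?_⟩
    rw [hS, map_prod, ez, ← hq, map_mul (algebraMap R N), hkN, map_prod]
    have h1 : ∀ j, aeval θ (V j ^ e j) = algebraMap R N (ev t x (v j) ^ e j) := by
      intro j
      rw [map_pow, map_pow, hVj, hev]
    simp only [h1]
    ring
  have hdvd : ∀ S : Multiset (Fin (r + 1)), ∀ b ∈ S.map V, b.Monic ∧
      ∃ c : K[X], b ∣ (eqOf q v T).map (algebraMap k[X] K) - c ^ q := by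
    intro S b hb
    obtain ⟨j, -, rfl⟩ := Multiset.mem_map.1 hb
    exact ⟨(hPp j).2.1, TK, (hPp j).2.2.2⟩
  refine ⟨SL.tateAt_of ?_, SL.shaTriv_of ?_, ?_⟩
  · refine cont (K := K) hmon hn hP ?_
    intro N _ _ _ _ _ _ _ _ _ θ hθ htop hev hkN
    refine SQ.mainC (R := R) (N := N) hp (Nat.succ_pos s) hq SQ.hyps SQ.lhyps hT hζ hmon hcop
      hsep hsm hirr hθ htop ?_
    intro z hz hvz
    obtain ⟨c, w, S, hc, hw, e⟩ := hfun N θ hev hkN z hz hvz
    exact ⟨c, w, S.map V, hc, hw, hdvd S, e⟩
  · refine cont (K := K) hmon hn hP ?_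
    intro N _ _ _ _ _ _ _ _ _ θ hθ htop hev hkN
    refine SH.mainSha (R := R) (N := N) hp (Nat.succ_pos s) hq SQ.hyps SQ.lhyps
      Pool.Agent.Y141.SH.stShaLoc hT hζ hmon hcop hsep hsm hirrK hθ htop ?_
    intro z hz hvz
    obtain ⟨c, w, S, hc, hw, e⟩ := hfun N θ hev hkN z hz hvz
    exact ⟨c, w, S.map V, hc, hw, hdvd S, e⟩
  · obtain ⟨f1, hf1⟩ : ∃ f1 : K[X], f1 = (eqOf q v T).map (algebraMap k[X] K) := ⟨_, rfl⟩
    have hgen : ∀ y : Jac q ((eqOf q v T).map (algebraMap k[X] K)) K,
        ∃ y' : Jac q ((eqOf q v T).map (algebraMap k[X] K)) K, y - SQ.pe hg K (1 - X) y' ∈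
          spanD hg (fun j : Fin r =>
            ptCl q ((eqOf q v T).map (algebraMap k[X] K)) (V (Fin.castSucc j), TK)) := by
      intro y
      refine cont (K := K) hmon hn hP ?_
      intro N _ _ _ _ _ _ _ _ _ θ hθ htop hev hkN
      obtain ⟨S', y', hSP, hx⟩ := SH.mainGen (R := R) (N := N) hp (Nat.succ_pos s) hq SQ.hyps
        SQ.lhyps FT.inj_all Pool.Agent.Y141.SH.stShaLoc hT hζ hg hmon hcop hsep hsm hirrK hθ htop
        (Set.range fun j : Fin (r + 1) => (V j, TK)) (by rintro _ ⟨j, rfl⟩; exact hPp j) (by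
          intro z hz hvz
          obtain ⟨c, w, S, hc, hw, e⟩ := hfun N θ hev hkN z hz hvz
          refine ⟨c, w, S.map fun j => (V j, TK), hc, hw, ?_, ?_⟩
          · intro P hP
            obtain ⟨j, -, rfl⟩ := Multiset.mem_map.1 hP
            exact ⟨j, rfl⟩
          · rw [e]
            congr 1
            rw [SQ.dvP_eval, Multiset.map_map, map_multiset_prod, Multiset.map_map]
            rfl) y
      refine ⟨y', ?_⟩
      rw [hx, add_sub_cancel_right]
      have hcast : ∀ j : Fin r, ptCl q ((eqOf q v T).map (algebraMap k[X] K))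
          (V (Fin.castSucc j), TK) ∈ spanD hg (fun j : Fin r =>
          ptCl q ((eqOf q v T).map (algebraMap k[X] K)) (V (Fin.castSucc j), TK)) :=
        fun j => mem_spanD hg (fun j : Fin r =>
          ptCl q ((eqOf q v T).map (algebraMap k[X] K)) (V (Fin.castSucc j), TK)) j
      have hall : ∀ j : Fin (r + 1), ptCl q ((eqOf q v T).map (algebraMap k[X] K))
          (V j, TK) ∈ spanD hg (fun j : Fin r =>
          ptCl q ((eqOf q v T).map (algebraMap k[X] K)) (V (Fin.castSucc j), TK)) := by
        intro j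
        refine Fin.lastCases ?_ (fun j => hcast j) j
        have h1 := sum_pts SQ.hyps hg V TK (fun j => ⟨(hPp j).1, (hPp j).2.1⟩) hVi hfT.symm (by
          rw [hfT]
          exact Finset.prod_ne_zero_iff.2 fun j _ => (hPp j).1.ne_zero)
        rw [Fin.sum_univ_castSucc] at h1
        rw [eq_neg_of_add_eq_zero_right h1]
        exact AddSubgroup.neg_mem _ (AddSubgroup.sum_mem _ fun j _ => hcast j)
      refine AddSubgroup.multiset_sum_mem _ _ fun c hc => ?_
      obtain ⟨P, hP, rfl⟩ := Multiset.mem_map.1 hc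
      obtain ⟨j, rfl⟩ := hSP P hP
      exact hall j
    have hrank : LinearIndependent ℤ (fun i : Fin r × Fin (q - 1) => ((sg hg K) ^ (i.2 : ℕ))
        (ptCl q ((eqOf q v T).map (algebraMap k[X] K)) (V (Fin.castSucc i.1), TK))) := by
      refine cont (K := K) hmon hn hP ?_
      intro N _ _ _ _ _ _ _ _ _ θ hθ htop hev hkN
      -- the embedding
      have hs : IsSeparable K θ := hsep.of_dvd (minpoly.dvd K θ hθ)
      have f3 : Algebra.IsSeparable K (IntermediateField.adjoin K {θ}) :=
        (IntermediateField.isSeparable_adjoin_simple_iff_isSeparable K N).2 hs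
      rw [htop] at f3
      haveI : Algebra.IsSeparable K N :=
        Algebra.IsSeparable.of_algHom K (⊤ : IntermediateField K N)
          (IntermediateField.topEquiv (F := K) (E := N)).symm.toAlgHom
      let i : N →ₐ[K] Sep K := IsSepClosed.lift
      letI : Algebra N (Sep K) := i.toRingHom.toAlgebra
      haveI : IsScalarTower K N (Sep K) :=
        IsScalarTower.of_algebraMap_eq fun x => (i.commutes x).symm
      have ha : Rt ((eqOf q v T).map (algebraMap k[X] K)) (algebraMap N (Sep K) θ) := by
        show aeval _ ((eqOf q v T).map (algebraMap k[X] K)) = 0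
        rw [aeval_algebraMap_apply, hθ, map_zero]
      -- the degree
      have hint : IsIntegral K θ := ⟨_, hmon.map _, hθ⟩
      have hmin : minpoly K θ = (eqOf q v T).map (algebraMap k[X] K) :=
        (minpoly.eq_of_irreducible_of_monic hirrK hθ (hmon.map _)).symm
      have hfd : FiniteDimensional K (⊤ : IntermediateField K N) := by
        rw [← htop]
        exact IntermediateField.adjoin.finiteDimensional hint
      haveI : FiniteDimensional K N :=
        Module.Finite.equiv (IntermediateField.topEquiv (F := K) (E := N)).toLinearEquiv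
      have hfin : Module.finrank K N = (eqOf q v T).natDegree := by
        rw [← IntermediateField.finrank_top' (F := K) (E := N), ← htop,
          IntermediateField.adjoin.finrank hint, hmin, hmon.natDegree_map]
      have hnat : ((eqOf q v T).map (algebraMap k[X] K)).natDegree = (eqOf q v T).natDegree :=
        hmon.natDegree_map _
      refine rank_lin (Ω := Sep K) (N := N) SQ.hyps hg FT.inj_all Pool.Agent.Y627.FT.stLin hp hq
        hirrK ha rfl (fun j : Fin r => (V (Fin.castSucc j), TK)) (fun j => hPp _) ?_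
      intro e w hw0 hw
      rw [hnat] at hw
      have hA : (∏ j, aeval θ (V (Fin.castSucc j)) ^ e j) ^ (eqOf q v T).natDegree =
          algebraMap R N (∏ j, ev t x (v j) ^
            (Fin.snoc (fun j => e j * (eqOf q v T).natDegree) 0 : Fin (r + 1) → ℕ) j) := by
        rw [Fin.prod_univ_castSucc, Fin.snoc_last, pow_zero, mul_one, map_prod, ← Finset.prod_pow]
        refine Finset.prod_congr rfl fun j _ => ?_
        rw [Fin.snoc_castSucc, map_pow, hVj, hev, ← pow_mul]
      obtain ⟨c, hc, hcw⟩ : ∃ c : k, c ≠ 0 ∧ algebraMap R N (algebraMap k R c *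
          ∏ j, ev t x (v j) ^
            (Fin.snoc (fun j => e j * (eqOf q v T).natDegree) 0 : Fin (r + 1) → ℕ) j) =
            w ^ (p ^ (s + 1)) := by
        rw [← hq]
        rcases hw with h | h
        · refine ⟨1, one_ne_zero, ?_⟩
          rw [map_one, one_mul, ← hA]
          exact h
        · refine ⟨-1, neg_ne_zero.2 one_ne_zero, ?_⟩
          rw [map_neg, map_one, neg_one_mul, map_neg, ← hA, neg_eq_iff_eq_neg]
          exact h
      have hd := hIq p s r k K N R ζ (fun j => ev t x (v j)) hp (by rw [← hq]; exact hζ)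
        (by rw [hfin]; exact hcop) (fun c => by
          rw [hkN]
          exact IsScalarTower.algebraMap_apply k[X] K N _) ha0 hN c _ w hc (Fin.snoc_last _ _) hcw
      intro j
      have h1 := hd (Fin.castSucc j)
      rw [Fin.snoc_castSucc, ← hq] at h1
      have hcop' : q.Coprime (eqOf q v T).natDegree := by
        have h2 := Nat.Coprime.pow_left (s + 1) hcop
        rwa [← hq] at h2
      exact hcop'.dvd_of_dvd_mul_right h1
    exact ⟨_, hrank, fun n y => gen_iter SQ.hyps hg hp hq _ hgen n y⟩

/-- The theorem. -/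
theorem main (hB : St_base) (hI : St_ind) (hIq : St_indq) (hS : St_smooth) (hIr : St_irr)
    (hIV : St_irrV) (hT : IsTower k k' K F) {p q s r : ℕ} (hp : p.Prime)
    (hq : q = p ^ (s + 1)) {ζ : k} (hζ : IsPrimitiveRoot ζ q) (hr : 0 < r)
    {v : Fin (r + 1) → k[X][X]} {T : k[X][X]} (hv : IsTowerData p q r v T)
    (hmon : (eqOf q v T).Monic) (hcop : p.Coprime (eqOf q v T).natDegree)
    (hvm : ∀ j, (v j).Monic ∧ 0 < (v j).natDegree)
    (hsep : ((eqOf q v T).map (algebraMap k[X] K)).Separable) :
    Concl p q r k k' F ((eqOf q v T).map (algebraMap k[X] K)) := by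
  obtain ⟨R, i1, i2, i3, t, x, hP, hV, hN⟩ := towerV hB hI hp hq hζ hr hv
  have hpk : (p : k) ≠ 0 := Pool.Agent.Y160.FT.p_ne hp hq hζ
  refine concl hIq hT hp hq hζ hr hv hmon hcop (fun j => (hvm j).1) hP hV hN hsep
    (hS p q s r k v T hp hq hpk hv)
    (fun j => hIV p q r k v T hp hv j (by rw [(hvm j).1.leadingCoeff]; exact isUnit_one)
      (hvm j).2 K) ?_
  have e : ((eqOf q v T).map (algebraMap k[X] K)).map (algebraMap K F) =
      ((eqOf q v T).map (mapRingHom (algebraMap k k'))).map (algebraMap k'[X] F) := by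
    rw [Polynomial.map_map, Polynomial.map_map]
    congr 1
    apply RingHom.ext
    intro y
    exact hT.map y
  rw [e]
  exact hIr p q s r k k' F v T hp hq hv hmon

end concl

end Pool.Agent.Y160.T8
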