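import Pool.Agent.Y160.T8.Stm

/-!
# The functions on the curves: the root step
-/

set_option autoImplicit false
set_option linter.all false

open Polynomial IsDedekindDomain WithZero

namespace Pool.Agent.Y160.T8

open Pool.Agent.Y160.FT
open Pool.Agent.Y228.FT
open Pool.Agent.Y160.SE (IsPw)
open Pool.Agent.Y160.T7 (t_prime res_zero)
open Pool.Agent.Y160.SL (atZero powT)

section step

variable {k R : Type} [Field k] [CommRing R] [IsDedekindDomain R] [Algebra k R] {t x : R}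
  {f : k[X][X]} {p r : ℕ} {a : Fin (r + 1) → R}

/-- The hypothesis on the fraction field. -/
theorem selV (hp : p.Prime) (hπ : Prime t) (hR : PropV p k R a) (b b' : R) (hb : b ≠ 0)
    (hb' : b' ≠ 0) (hab : ∀ v : HeightOneSpectrum R, v.intValuation t = 1 →
      IsPw p (v.intValuation b / v.intValuation b')) :
    ∃ (c : k) (e : Fin (r + 1) → ℕ) (j : ℕ) (w w' : R), c ≠ 0 ∧ w ≠ 0 ∧ w' ≠ 0 ∧
      b * w' ^ p = algebraMap k R c * ((∏ i, a i ^ e i) * t ^ j) * b' * w ^ p := by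
  have hinj := IsFractionRing.injective R (FractionRing R)
  have hne : ∀ y : R, y ≠ 0 → algebraMap R (FractionRing R) y ≠ 0 := fun y hy h =>
    hy (hinj (by rw [h, map_zero]))
  have hva : ∀ (v : HeightOneSpectrum R), v.valuation (FractionRing R)
      (algebraMap R (FractionRing R) b / algebraMap R (FractionRing R) b') =
      v.intValuation b / v.intValuation b' := fun v => by
    rw [map_div₀, HeightOneSpectrum.valuation_of_algebraMap, HeightOneSpectrum.valuation_of_algebraMap]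
  obtain ⟨n, hn⟩ : ∃ n : ℤ, (vpr hπ).intValuation b / (vpr hπ).intValuation b' = exp n :=
    ⟨_, (exp_log (div_ne_zero (val_ne_zero _ hb) (val_ne_zero _ hb'))).symm⟩
  have hℓ0 : (0 : ℤ) < p := by exact_mod_cast hp.pos
  obtain ⟨e, m, hem⟩ : ∃ (e : ℕ) (m : ℤ), n = e + p * m := by
    refine ⟨(n % p).toNat, n / p, ?_⟩
    rw [Int.toNat_of_nonneg (Int.emod_nonneg _ hℓ0.ne'), Int.emod_add_mul_ediv]
  obtain ⟨c, ε, w, hc, hw, hz⟩ := hR (FractionRing R)
    (algebraMap R (FractionRing R) b / algebraMap R (FractionRing R) b' *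
      algebraMap R (FractionRing R) t ^ e)
    (mul_ne_zero (div_ne_zero (hne b hb) (hne b' hb')) (pow_ne_zero _ (hne t hπ.ne_zero)))
    (fun P => by
      rw [map_mul, hva, map_pow, HeightOneSpectrum.valuation_of_algebraMap]
      by_cases h1 : P.intValuation t = 1
      · rw [h1, one_pow, mul_one]
        exact hab P h1
      · rw [eq_vpr hπ P h1, hn, vpr_self, ← exp_nsmul, ← exp_add]
        refine ⟨exp m, ?_⟩
        rw [← exp_nsmul]
        congr 1
        rw [nsmul_eq_mul, nsmul_eq_mul, hem]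
        ring)
  obtain ⟨w1, w2, hw2, rfl⟩ := IsFractionRing.div_surjective (A := R) w
  have hw20 : w2 ≠ 0 := nonZeroDivisors.ne_zero hw2
  have hw10 : w1 ≠ 0 := fun h => hw (by rw [h, map_zero, zero_div])
  have hbL := hne b' hb'
  have hw2L := hne w2 hw20
  have key : b * t ^ e * w2 ^ p = algebraMap k R c * (∏ i, a i ^ ε i) * b' * w1 ^ p := by
    apply hinj
    have hz' := hz
    rw [div_pow, map_mul (algebraMap R (FractionRing R)) (algebraMap k R c)] at hz'
    rw [map_mul, map_mul, map_pow, map_pow, map_mul, map_mul, map_mul, map_pow]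
    field_simp at hz'
    linear_combination hz'
  refine ⟨c, ε, (p - 1) * e, w1, t ^ e * w2, hc, hw10,
    mul_ne_zero (pow_ne_zero _ hπ.ne_zero) hw20, ?_⟩
  have e1 : (t ^ e) ^ p = t ^ e * t ^ ((p - 1) * e) := by
    rw [← pow_mul, ← pow_add]
    congr 1
    obtain ⟨m', rfl⟩ : ∃ m', p = m' + 1 := ⟨p - 1, by have := hp.pos; omega⟩
    rw [Nat.add_sub_cancel]
    ring
  rw [mul_pow, e1]
  linear_combination t ^ ((p - 1) * e) * key

/-- The condition on the norm residues. -/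
theorem nrV {v : HeightOneSpectrum R} (hvπ : v.intValuation t = exp (-1 : ℤ)) (c : k) (hc0 : c ≠ 0)
    (α : R) (j : ℕ) (hvA : v.intValuation α = 1)
    (hnr : ∃ (e : ℕ) (w : R), v.intValuation w = 1 ∧
        v.intValuation (algebraMap k R c * (α * t ^ j) -
          ((-1) ^ (p - 1) * t) ^ e * w ^ p) < exp (-(e : ℤ))) :
    ∃ w : R, v.intValuation (algebraMap k R (c * ((-1) ^ (p - 1)) ^ j) * α - w ^ p) < 1 := by
  obtain ⟨e, w, hw, hlt⟩ := hnr
  have hvc : v.intValuation (algebraMap k R c) = 1 :=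
    val_unit v ((IsUnit.mk0 _ hc0).map (algebraMap k R))
  have hpw : ∀ n : ℕ, v.intValuation t ^ n = exp (-(n : ℤ)) := fun n => by
    rw [hvπ, ← exp_nsmul]
    congr 1
    rw [nsmul_eq_mul]
    ring
  have hvε : ∀ n : ℕ, v.intValuation ((-1 : R) ^ n) = 1 := fun n =>
    val_unit v (isUnit_one.neg.pow n)
  have h1 : v.intValuation (algebraMap k R c * (α * t ^ j)) = exp (-(j : ℤ)) := by
    rw [map_mul, map_mul, map_pow, hvc, hvA, one_mul, one_mul, hpw]
  have h2 : v.intValuation (((-1) ^ (p - 1) * t) ^ e * w ^ p) = exp (-(e : ℤ)) := by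
    rw [map_mul, map_pow, map_pow, map_mul, hvε, one_mul, hw, one_pow, mul_one, hpw]
  have hje : j = e := by
    rcases lt_trichotomy j e with h | h | h
    · exfalso
      have h5 : v.intValuation (algebraMap k R c * (α * t ^ j)) ≤
          max (v.intValuation (algebraMap k R c * (α * t ^ j) -
            ((-1) ^ (p - 1) * t) ^ e * w ^ p)) (v.intValuation (((-1) ^ (p - 1) * t) ^ e * w ^ p)) := by
        have := v.intValuation.map_add (algebraMap k R c * (α * t ^ j) -
            ((-1) ^ (p - 1) * t) ^ e * w ^ p) (((-1) ^ (p - 1) * t) ^ e * w ^ p)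
        rwa [sub_add_cancel] at this
      rw [h1, h2, max_eq_right hlt.le, exp_le_exp] at h5
      omega
    · exact h
    · exfalso
      have h5 : v.intValuation (((-1) ^ (p - 1) * t) ^ e * w ^ p) ≤
          max (v.intValuation (algebraMap k R c * (α * t ^ j)))
            (v.intValuation (algebraMap k R c * (α * t ^ j) -
            ((-1) ^ (p - 1) * t) ^ e * w ^ p)) := by
        have := v.intValuation.map_sub (algebraMap k R c * (α * t ^ j))
          (algebraMap k R c * (α * t ^ j) - ((-1) ^ (p - 1) * t) ^ e * w ^ p)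
        rwa [sub_sub_cancel] at this
      rw [h1, h2] at h5
      have h6 : exp (-(j : ℤ)) < exp (-(e : ℤ)) := exp_lt_exp.2 (by omega)
      exact absurd h5 (not_le.2 (max_lt h6 hlt))
  subst hje
  have h7 : algebraMap k R c * (α * t ^ j) - ((-1) ^ (p - 1) * t) ^ j * w ^ p =
      t ^ j * (algebraMap k R c * α - ((-1) ^ (p - 1)) ^ j * w ^ p) := by
    rw [mul_pow]
    ring
  rw [h7, map_mul, map_pow, hpw] at hlt
  have h8 : v.intValuation (algebraMap k R c * α - ((-1) ^ (p - 1)) ^ j * w ^ p) < 1 := by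
    by_contra hcon
    push Not at hcon
    have : exp (-(j : ℤ)) * 1 ≤ exp (-(j : ℤ)) *
        v.intValuation (algebraMap k R c * α - ((-1) ^ (p - 1)) ^ j * w ^ p) := by gcongr
    rw [mul_one] at this
    exact absurd hlt (not_lt.2 this)
  have hε2R : ((-1 : R) ^ (p - 1)) ^ j * ((-1) ^ (p - 1)) ^ j = 1 := by
    rw [← mul_pow, ← mul_pow]
    norm_num
  refine ⟨w, ?_⟩
  have e1 : algebraMap k R (c * ((-1) ^ (p - 1)) ^ j) * α - w ^ p =
      ((-1) ^ (p - 1)) ^ j * (algebraMap k R c * α - ((-1) ^ (p - 1)) ^ j * w ^ p) := by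
    simp only [map_mul, map_pow, map_neg, map_one]
    linear_combination (w ^ p) * hε2R
  have e2 : v.intValuation (((-1 : R) ^ (p - 1)) ^ j) = 1 := by rw [← pow_mul]; exact hvε _
  rw [e1, map_mul, e2, one_mul]
  exact h8

/-- Exponents which are congruent. -/
theorem prod_mod (hp : 0 < p) {S : Type} [CommRing S] (a : Fin (r + 1) → S) (e : Fin (r + 1) → ℕ)
    (h : ∀ i j, e i ≡ e j [MOD p]) :
    ∏ i, a i ^ e i = (∏ i, a i) ^ (e 0 % p) * (∏ i, a i ^ (e i / p)) ^ p := by
  rw [← Finset.prod_pow, ← Finset.prod_pow, ← Finset.prod_mul_distrib]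
  refine Finset.prod_congr rfl fun i _ => ?_
  rw [← pow_mul, ← pow_add]
  congr 1
  have h1 : e i % p = e 0 % p := h i 0
  rw [← h1, mul_comm, Nat.mod_add_div]

theorem rootV (hp : p.Prime) {ζ : k} (hζ : IsPrimitiveRoot ζ p) (h : Pres t x f)
    (hR : PropV p k R a) (hirr : Irreducible (atZero f)) (hcop : p.Coprime (atZero f).natDegree)
    {τ : R} {s : ℕ} (hprod : ∏ j, a j = -τ ^ (p ^ (s + 1))) (hnd : ∀ j, ¬ t ∣ a j)
    (hind : ∀ (c : k) (e : Fin (r + 1) → ℕ) (w : R), c ≠ 0 →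
      t ∣ algebraMap k R c * ∏ j, a j ^ e j - w ^ p → ∀ i j, e i ≡ e j [MOD p]) :
    ∃ hD : IsDedekindDomain (AdjoinRoot (X ^ p - C t : R[X])),
      PropV p k (AdjoinRoot (X ^ p - C t : R[X])) (fun j => algebraMap R _ (a j)) := by
  obtain ⟨hd, hs⟩ := res_zero h
  have hπ := t_prime h hirr
  obtain ⟨hD, hK⟩ := Pool.Agent.Y494.FT.stKum p k R ζ t hp.one_lt hζ (val_cases hπ)
    ⟨vpr hπ, vpr_self hπ⟩
  letI := hD
  refine ⟨hD, ?_⟩
  intro L _ _ _ z hz hzP
  letI : Algebra k L := ((algebraMap (AdjoinRoot (X ^ p - C t : R[X])) L).comp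
    (algebraMap k (AdjoinRoot (X ^ p - C t : R[X])))).toAlgebra
  have hcL : ∀ c : k, algebraMap k L c = algebraMap (AdjoinRoot (X ^ p - C t : R[X])) L
    (AdjoinRoot.of _ (algebraMap k R c)) := fun c => rfl
  obtain ⟨σ, hKx⟩ := hK L hcL
  have hinjL : ∀ a : R, a ≠ 0 → algebraMap (AdjoinRoot (X ^ p - C t : R[X])) L
      (algebraMap R (AdjoinRoot (X ^ p - C t : R[X])) a) ≠ 0 := fun a ha h => by
    apply ha
    apply hKx.inj
    rw [map_zero]
    exact (IsFractionRing.injective (AdjoinRoot (X ^ p - C t : R[X])) L) (by rw [h, map_zero])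
  have hv0 : (vpr hπ).intValuation t ≠ 1 := by rw [vpr_self]; exact exp_neg_one_ne_one
  have hpi : ∀ j : ℕ, algebraMap (AdjoinRoot (X ^ p - C t : R[X])) L
      (algebraMap R (AdjoinRoot (X ^ p - C t : R[X])) (t ^ j)) =
      (algebraMap _ L (AdjoinRoot.root (X ^ p - C t : R[X])) ^ j) ^ p := by
    intro j
    have h1 : AdjoinRoot.root (X ^ p - C t : R[X]) ^ p =
      algebraMap R (AdjoinRoot (X ^ p - C t : R[X])) t := hKx.pw
    rw [map_pow, map_pow, ← h1, map_pow, ← pow_mul, ← pow_mul, mul_comm]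
  have hroot0 : algebraMap _ L (AdjoinRoot.root (X ^ p - C t : R[X])) ≠ 0 := by
    intro h0
    have h1 := hpi 1
    rw [h0, pow_one, pow_one, zero_pow hp.ne_zero] at h1
    exact hinjL t hπ.ne_zero h1
  have ha0 : ∀ j, a j ≠ 0 := fun j h0 => hnd j (by rw [h0]; exact dvd_zero t)
  have hd0 : ∀ (e : Fin (r + 1) → ℕ) (j : ℕ), (∏ i, a i ^ e i) * t ^ j ≠ 0 := fun e j =>
    mul_ne_zero (Finset.prod_ne_zero_iff.2 fun i _ => pow_ne_zero _ (ha0 i))
      (pow_ne_zero _ hπ.ne_zero)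
  refine Exists.elim (Pool.Agent.Y317.FT.stTS p 0 p k R (AdjoinRoot (X ^ p - C t : R[X])) L ζ t _ σ
    {d : R | ∃ (e : Fin (r + 1) → ℕ) (j : ℕ), d = (∏ i, a i ^ e i) * t ^ j} hp
    (by rw [zero_add, pow_one]) hζ hKx (val_cases hπ)
    ⟨⟨0, 0, ?_⟩, ?_, ?_⟩ ?_ ?_ ?_ z hz hzP) ?_
  · simp
  · rintro ⟨e, j, hj⟩
    exact hd0 e j hj.symm
  · rintro b ⟨e, i, rfl⟩ b' ⟨e', j, rfl⟩
    refine ⟨e + e', i + j, ?_⟩
    have h1 : ∏ i, a i ^ (e + e') i = (∏ i, a i ^ e i) * ∏ i, a i ^ e' i := by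
      rw [← Finset.prod_mul_distrib]
      exact Finset.prod_congr rfl fun i _ => by rw [Pi.add_apply, pow_add]
    rw [h1, pow_add]
    ring
  · intro b b' hb hb' hab
    obtain ⟨c, e, j, w, w', hc, hw, hw', h1⟩ := selV hp hπ hR b b' hb hb' hab
    exact ⟨c, _, w, w', hc, ⟨e, j, rfl⟩, hw, hw', h1⟩
  · rintro c d hc0 ⟨e, j, rfl⟩ hnr
    have hα : (vpr hπ).intValuation (∏ i, a i ^ e i) = 1 := by
      rw [vpr_eq_one]
      intro hdv
      obtain ⟨i, -, hi⟩ := (Prime.dvd_finset_prod_iff hπ _).1 hdv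
      exact hnd i (hπ.dvd_of_dvd_pow hi)
    obtain ⟨w, hw⟩ := nrV (vpr_self hπ) c hc0 _ j hα (hnr (vpr hπ) hv0)
    have hmod := hind _ e w (mul_ne_zero hc0 (pow_ne_zero _ (pow_ne_zero _ (by norm_num))))
      ((vpr_lt_one hπ _).1 hw)
    have h1 := prod_mod hp.pos a e hmod
    have h2 : algebraMap (AdjoinRoot (X ^ p - C t : R[X])) L
        (algebraMap R (AdjoinRoot (X ^ p - C t : R[X])) ((∏ i, a i ^ e i) * t ^ j)) =
        algebraMap k L ((-1) ^ (e 0 % p)) * (algebraMap (AdjoinRoot (X ^ p - C t : R[X])) L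
          (algebraMap R (AdjoinRoot (X ^ p - C t : R[X]))
            (τ ^ (p ^ s * (e 0 % p)) * ∏ i, a i ^ (e i / p))) *
          algebraMap _ L (AdjoinRoot.root (X ^ p - C t : R[X])) ^ j) ^ p := by
      have h3 : (-τ ^ (p ^ (s + 1))) ^ (e 0 % p) =
          algebraMap k R ((-1) ^ (e 0 % p)) * (τ ^ (p ^ s * (e 0 % p))) ^ p := by
        rw [neg_pow, map_pow, map_neg, map_one, ← pow_mul, ← pow_mul]
        congr 2
        rw [pow_succ]
        ring
      rw [h1, hprod, h3]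
      generalize (τ ^ (p ^ s * (e 0 % p))) = τ1
      generalize (∏ i, a i ^ (e i / p)) = P1
      have hpj := hpi j
      have hk : algebraMap k L ((-1) ^ (e 0 % p)) = (((algebraMap (AdjoinRoot (X ^ p - C t : R[X]))
        L).comp (algebraMap R (AdjoinRoot (X ^ p - C t : R[X]))) : R →+* L))
          (algebraMap k R ((-1) ^ (e 0 % p))) := rfl
      rw [hk]
      have hΦ : ∀ y : R, algebraMap (AdjoinRoot (X ^ p - C t : R[X])) L
          (algebraMap R (AdjoinRoot (X ^ p - C t : R[X])) y) =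
          (((algebraMap (AdjoinRoot (X ^ p - C t : R[X])) L).comp
            (algebraMap R (AdjoinRoot (X ^ p - C t : R[X]))) : R →+* L)) y := fun y => rfl
      rw [hΦ] at hpj ⊢
      rw [hΦ]
      generalize (((algebraMap (AdjoinRoot (X ^ p - C t : R[X])) L).comp
            (algebraMap R (AdjoinRoot (X ^ p - C t : R[X]))) : R →+* L)) = Φ at hpj ⊢
      rw [map_mul Φ, map_mul Φ, map_mul Φ, map_mul Φ, map_pow Φ τ1, map_pow Φ P1, hpj]
      ring
    refine ⟨(-1) ^ (e 0 % p), _, pow_ne_zero _ (by norm_num), ?_, h2⟩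
    intro h0
    rw [h0, zero_pow hp.ne_zero, mul_zero] at h2
    exact hinjL _ (hd0 e j) h2
  · refine ⟨vpr hπ, hv0, fun c w hcw => ?_⟩
    have h5 := (vpr_lt_one hπ _).1 hcw
    obtain ⟨b, hb⟩ := hs w
    have h6 : t ∣ w ^ p - (aeval x b) ^ p := hb.trans (sub_dvd_pow_sub_pow _ _ _)
    have h7 : t ∣ aeval x (C c - b ^ p) := by
      have e1 : aeval x (C c - b ^ p) = (algebraMap k R c - w ^ p) + (w ^ p - (aeval x b) ^ p) := by
        rw [map_sub, map_pow, aeval_C]; ring
      rw [e1]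
      exact dvd_add h5 h6
    exact norm_pw hp.pos hirr hcop ((hd _).1 h7)
  · rintro c ⟨d, w, hc0, ⟨e, j, rfl⟩, hw, hzz⟩
    refine ⟨c, e, (algebraMap _ L (AdjoinRoot.root (X ^ p - C t : R[X])) ^ j) * w, hc0,
      mul_ne_zero (pow_ne_zero _ hroot0) hw, ?_⟩
    rw [hzz, map_mul, map_mul, hpi, mul_pow]
    have h3 : algebraMap R (AdjoinRoot (X ^ p - C t : R[X])) (∏ i, a i ^ e i) =
        ∏ i, algebraMap R (AdjoinRoot (X ^ p - C t : R[X])) (a i) ^ e i := by
      rw [map_prod]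
      exact Finset.prod_congr rfl fun i _ => map_pow _ _ _
    rw [h3, map_mul]
    show algebraMap k L c * _ * _ = algebraMap _ L (algebraMap k _ c) * _ * _
    have h4 : algebraMap k L c = algebraMap (AdjoinRoot (X ^ p - C t : R[X])) L
      (algebraMap k (AdjoinRoot (X ^ p - C t : R[X])) c) := rfl
    rw [h4]
    ring

end step

end Pool.Agent.Y160.T8
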