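import Pool.Agent.Y160.SL.ClsV
import Pool.Agent.Y160.T7.Ring
import Pool.Agent.Y160.T7.Stm

/-!
# Project T8: statements
-/

set_option autoImplicit false
set_option linter.all false

open Polynomial IsDedekindDomain WithZero

namespace Pool.Agent.Y160.T8

open Pool.Agent.Y160.FT (Pres)
open Pool.Agent.Y160.SE (IsPw)
open Pool.Agent.Y160.SL (atZero powT eqOf IndepMod Redei IsTowerData Smooth)

/-- The value at `(t, x)` of a polynomial in `x` (outer variable) and `t` (inner variable). -/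
noncomputable def ev {k R : Type} [Field k] [CommRing R] [Algebra k R] (t x : R) (P : k[X][X]) : R :=
  eval₂ ((aeval t : k[X] →ₐ[k] R) : k[X] →+* R) x P

/-- The functions whose valuations are `p`-th powers. -/
def PropV (p : ℕ) (k R : Type) [Field k] [CommRing R] [IsDedekindDomain R] [Algebra k R] {r : ℕ}
    (a : Fin (r + 1) → R) : Prop :=
  ∀ (L : Type) [Field L] [Algebra R L] [IsFractionRing R L] (z : L), z ≠ 0 →
    (∀ P : HeightOneSpectrum R, IsPw p (P.valuation L z)) →
      ∃ (c : k) (e : Fin (r + 1) → ℕ) (w : L), c ≠ 0 ∧ w ≠ 0 ∧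
        z = algebraMap R L (algebraMap k R c * ∏ j, a j ^ e j) * w ^ p

/-- Independence modulo `p`-th powers. -/
def IndV (p : ℕ) (k R : Type) [Field k] [CommRing R] [Algebra k R] {r : ℕ} (a : Fin (r + 1) → R) :
    Prop :=
  ∀ (c : k) (e : Fin (r + 1) → ℕ) (w : R), c ≠ 0 → algebraMap k R c * ∏ j, a j ^ e j = w ^ p →
    ∀ i j, e i ≡ e j [MOD p]

/-- The base. -/
def St_base : Prop := ∀ (p q s r : ℕ) (k : Type) [Field k] (ζ : k) (G : Fin (r + 1) → k[X]),
  p.Prime → q = p ^ (s + 1) → IsPrimitiveRoot ζ q →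
  (∀ j, (G j).Monic ∧ Irreducible (G j) ∧ (G j).Separable) → Function.Injective G →
  p.Coprime (∏ j, G j).natDegree → Redei p G →
  ∃ (R : Type) (_ : CommRing R) (_ : IsDedekindDomain R) (_ : Algebra k R) (t x : R),
    Pres t x (C (∏ j, G j) + X ^ q) ∧ PropV p k R (fun j => aeval t (G j)) ∧
    IndV p k R (fun j => aeval t (G j))

/-- The root step, independence. -/
def St_ind : Prop := ∀ (p r : ℕ) (k R : Type) [Field k] [CommRing R] [IsDedekindDomain R]
  [Algebra k R] (ζ : k) (t : R) (a : Fin (r + 1) → R), p.Prime → IsPrimitiveRoot ζ p → Prime t →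
  (∀ j, ¬ t ∣ a j) → IndV p k R a → ∀ [IsDomain (AdjoinRoot (X ^ p - C t : R[X]))],
    IndV p k (AdjoinRoot (X ^ p - C t : R[X])) (fun j => algebraMap R _ (a j))

/-- Smoothness. -/
def St_smooth : Prop := ∀ (p q s r : ℕ) (k : Type) [Field k] (v : Fin (r + 1) → k[X][X])
  (T : k[X][X]), p.Prime → q = p ^ (s + 1) → (p : k) ≠ 0 → IsTowerData p q r v T →
  Smooth (eqOf q v T)

/-- Absolute irreducibility. -/
def St_irr : Prop := ∀ (p q s r : ℕ) (k E F : Type) [Field k] [Field E] [Algebra k E] [Field F]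
  [Algebra E[X] F] [IsFractionRing E[X] F] (v : Fin (r + 1) → k[X][X]) (T : k[X][X]), p.Prime →
  q = p ^ (s + 1) → IsTowerData p q r v T → (eqOf q v T).Monic →
  Irreducible (((eqOf q v T).map (mapRingHom (algebraMap k E))).map (algebraMap E[X] F))

/-- Irreducibility of the polynomials `v_j`. -/
def St_irrV : Prop := ∀ (p q r : ℕ) (k : Type) [Field k] (v : Fin (r + 1) → k[X][X])
  (T : k[X][X]), p.Prime → IsTowerData p q r v T →
  ∀ j, IsUnit (v j).leadingCoeff → 0 < (v j).natDegree →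
    ∀ (K : Type) [Field K] [Algebra k[X] K] [IsFractionRing k[X] K],
      Irreducible ((v j).map (algebraMap k[X] K))

end Pool.Agent.Y160.T8
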