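import Pool.Agent.Y160.T8.Ring

/-!
# The functions on the curves of the class
-/

set_option autoImplicit false
set_option linter.all false

open Polynomial IsDedekindDomain

namespace Pool.Agent.Y160.T8

open Pool.Agent.Y160.FT (Pres eval_swap)
open Pool.Agent.Y160.T7
open Pool.Agent.Y160.SL (atZero powT eqOf IndepMod Redei IsTowerData)

section ev

variable {k R : Type} [Field k] [CommRing R] [Algebra k R] (t x : R)

/-- The evaluation as a ring homomorphism. -/
noncomputable def evH : k[X][X] →+* R := eval₂RingHom ((aeval t : k[X] →ₐ[k] R) : k[X] →+* R) x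

theorem evH_apply (P : k[X][X]) : evH t x P = ev t x P := rfl

theorem ev_swap (P : k[X][X]) : ev x t (Bivariate.swap P) = ev t x P := (eval_swap x t P).symm

theorem ev_shear {c : k} (hc : c ≠ 0) (b : k[X]) (P : k[X][X]) :
    ev t (ev t x (C (C c⁻¹) * (X - C b))) (P.comp (C (C c) * X + C b)) = ev t x P := by
  obtain ⟨h1, h2⟩ := comp_inv hc b
  have key : ∀ Q : k[X][X], ev t (ev t x (C (C c⁻¹) * (X - C b))) Q =
      ev t x (Q.comp (C (C c⁻¹) * (X - C b))) := fun Q => (eval₂_comp _).symm
  rw [key, comp_assoc, h1, comp_X]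

theorem ev_powT {S : Type} [CommRing S] [Algebra R S] [Algebra k S] [IsScalarTower k R S] {t' : S}
    {p : ℕ} (ht : t' ^ p = algebraMap R S t) (P : k[X][X]) :
    ev t' (algebraMap R S x) (powT p P) = algebraMap R S (ev t x P) := by
  have key : (evH t' (algebraMap R S x)).comp (mapRingHom (expand k p : k[X] →+* k[X])) =
      (algebraMap R S).comp (evH t x) := by
    apply Polynomial.ringHom_ext'
    · apply Polynomial.ringHom_ext
      · intro c
        show ev t' (algebraMap R S x) (map _ (C (C c))) = algebraMap R S (ev t x (C (C c)))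
        rw [map_C]
        unfold ev
        rw [eval₂_C, eval₂_C]
        show aeval t' (expand k p (C c)) = algebraMap R S (aeval t (C c))
        rw [expand_C, aeval_C, aeval_C, IsScalarTower.algebraMap_apply k R S]
      · show ev t' (algebraMap R S x) (map _ (C X)) = algebraMap R S (ev t x (C X))
        rw [map_C]
        unfold ev
        rw [eval₂_C, eval₂_C]
        show aeval t' (expand k p X) = algebraMap R S (aeval t X)
        rw [expand_X, map_pow, aeval_X, aeval_X, ht]
    · show ev t' (algebraMap R S x) (map _ X) = algebraMap R S (ev t x X)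
      rw [map_X]
      unfold ev
      rw [eval₂_X, eval₂_X]
  exact congrArg (fun g : k[X][X] →+* S => g P) key

/-- Evaluation modulo `t`. -/
theorem ev_mod (P : k[X][X]) : t ∣ ev t x P - aeval x (atZero P) := by
  have h1 : (C X : k[X][X]) ∣ P - (atZero P).map C := by
    rw [C_dvd_iff_dvd_coeff]
    intro n
    rw [coeff_sub, coeff_map, atZero, coeff_map]
    have h2 := X_sub_C_dvd_sub_C_eval (p := P.coeff n) (a := (0 : k))
    rw [C_0, sub_zero] at h2
    exact h2
  obtain ⟨Q, hQ⟩ := h1
  have h3 : ev t x P = aeval x (atZero P) + t * ev t x Q := by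
    have h4 : P = (atZero P).map C + C X * Q := by rw [← hQ]; ring
    have h5 : ev t x ((atZero P).map C) = aeval x (atZero P) := by
      unfold ev
      rw [eval₂_map]
      have h6 : (((aeval t : k[X] →ₐ[k] R) : k[X] →+* R)).comp C = algebraMap k R := by
        apply RingHom.ext
        intro c
        show aeval t (C c) = _
        rw [aeval_C]
      rw [h6]
      rfl
    have h7 : ev t x (C X : k[X][X]) = t := by
      unfold ev
      rw [eval₂_C]
      exact aeval_X t
    conv_lhs => rw [h4]
    rw [← evH_apply, map_add, map_mul, evH_apply, evH_apply, evH_apply, h5, h7]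
  rw [h3, add_sub_cancel_left]
  exact dvd_mul_right t _

end ev

/-- The rings of the curves. -/
theorem towerV (hB : St_base) (hI : St_ind) {p q s r : ℕ} {k : Type} [Field k] (hp : p.Prime)
    (hq : q = p ^ (s + 1)) {ζ : k} (hζ : IsPrimitiveRoot ζ q) (hr : 0 < r)
    {v : Fin (r + 1) → k[X][X]} {T : k[X][X]} (hv : IsTowerData p q r v T) :
    ∃ (R : Type) (_ : CommRing R) (_ : IsDedekindDomain R) (_ : Algebra k R) (t x : R),
      Pres t x (eqOf q v T) ∧ PropV p k R (fun j => ev t x (v j)) ∧
      IndV p k R (fun j => ev t x (v j)) := by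
  have hζ' : IsPrimitiveRoot (ζ ^ (p ^ s)) p :=
    hζ.pow (by rw [hq]; exact pow_pos hp.pos _) (by rw [hq, pow_succ])
  induction hv with
  | base G h1 h2 h3 h4 =>
    obtain ⟨R, i1, i2, i3, t, x, hP, hV, hN⟩ := hB p q s r k ζ G hp hq hζ h1 h2 h3 h4
    have e1 : ∀ j, ev t x (C (G j) : k[X][X]) = aeval t (G j) := fun j => by
      unfold ev
      rw [eval₂_C]
      rfl
    refine ⟨R, i1, i2, i3, t, x, ?_, ?_, ?_⟩
    · unfold eqOf
      rw [← map_prod]
      exact hP
    · simp only [e1]
      exact hV
    · simp only [e1]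
      exact hN
  | swap v T _ ih =>
    obtain ⟨R, i1, i2, i3, t, x, hP, hV, hN⟩ := ih
    refine ⟨R, i1, i2, i3, x, t, ?_, ?_, ?_⟩
    · have h1 := pres_swap' hP
      unfold eqOf at h1 ⊢
      rw [map_add, map_prod, map_pow] at h1
      exact h1
    · simp only [ev_swap]
      exact hV
    · simp only [ev_swap]
      exact hN
  | shear v T c b hc _ ih =>
    obtain ⟨R, i1, i2, i3, t, x, hP, hV, hN⟩ := ih
    refine ⟨R, i1, i2, i3, t, ev t x (C (C c⁻¹) * (X - C b)), ?_, ?_, ?_⟩
    · have h1 := pres_shear hP hc b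
      unfold eqOf at h1 ⊢
      rw [add_comp, pow_comp, prod_comp] at h1
      exact h1
    · simp only [ev_shear t x hc b]
      exact hV
    · simp only [ev_shear t x hc b]
      exact hN
  | root v T h1 h2 h3 h4 h5 _ ih =>
    obtain ⟨R, i1, i2, i3, t, x, hP, hV, hN⟩ := ih
    obtain ⟨hd, hs⟩ := res_zero hP
    have hprime := t_prime hP h1
    -- the product
    have hprod : ∏ j, ev t x (v j) = -(ev t x T) ^ (p ^ (s + 1)) := by
      have e1 : ev t x (eqOf q v T) = 0 := (hP.ker _).2 dvd_rfl
      unfold eqOf at e1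
      rw [← evH_apply, map_add, map_prod, map_pow, hq] at e1
      exact eq_neg_of_add_eq_zero_left e1
    -- independence modulo `t`
    have hind : ∀ (c : k) (e : Fin (r + 1) → ℕ) (w : R), c ≠ 0 →
        t ∣ algebraMap k R c * ∏ j, ev t x (v j) ^ e j - w ^ p → ∀ i j, e i ≡ e j [MOD p] := by
      intro c e w hc hdv
      obtain ⟨B, hB'⟩ := hs w
      refine h5 c e B hc ((hd _).1 ?_)
      have hcong : ∀ y z : R, t ∣ y - z → Ideal.Quotient.mk (Ideal.span {t}) y =
          Ideal.Quotient.mk (Ideal.span {t}) z := fun y z h =>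
        Ideal.Quotient.eq.2 (Ideal.mem_span_singleton.2 h)
      have hback : ∀ y z : R, Ideal.Quotient.mk (Ideal.span {t}) y =
          Ideal.Quotient.mk (Ideal.span {t}) z → t ∣ y - z := fun y z h =>
        Ideal.mem_span_singleton.1 (Ideal.Quotient.eq.1 h)
      have e1 := hcong _ _ hdv
      rw [map_mul, map_prod, map_pow, hcong _ _ hB'] at e1
      simp only [map_pow, fun j => hcong _ _ (ev_mod t x (v j))] at e1
      rw [map_sub, map_mul, map_prod, map_pow, aeval_C]
      apply hback
      rw [map_mul, map_prod, map_pow]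
      simp only [map_pow]
      exact e1
    -- not divisible by `t`
    have hnd : ∀ j, ¬ t ∣ ev t x (v j) := by
      intro j hj
      have e1 := hind 1 (Pi.single j 1) 0 one_ne_zero (by
        have e2 : ∏ i, ev t x (v i) ^ (Pi.single j 1 : Fin (r + 1) → ℕ) i = ev t x (v j) := by
          rw [Finset.prod_eq_single j]
          · rw [Pi.single_eq_same, pow_one]
          · intro i _ hi
            rw [Pi.single_eq_of_ne hi, pow_zero]
          · intro h; exact absurd (Finset.mem_univ j) h
        rw [e2, map_one, one_mul, zero_pow hp.ne_zero, sub_zero]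
        exact hj)
      obtain ⟨i, hi⟩ : ∃ i : Fin (r + 1), i ≠ j := by
        haveI : Nontrivial (Fin (r + 1)) := Fin.nontrivial_iff_two_le.2 (by omega)
        exact exists_ne j
      have e3 := e1 i j
      rw [Pi.single_eq_of_ne hi, Pi.single_eq_same] at e3
      have e4 := (Nat.modEq_zero_iff_dvd.1 e3.symm)
      exact hp.one_lt.ne' (Nat.dvd_one.1 e4)
    obtain ⟨hD, hV'⟩ := rootV hp hζ' hP hV h1 h3 hprod hnd hind
    have e0 : AdjoinRoot.root (X ^ p - C t : R[X]) ^ p =
        algebraMap R (AdjoinRoot (X ^ p - C t : R[X])) t := by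
      have h6 := AdjoinRoot.eval₂_root (X ^ p - C t : R[X])
      rw [eval₂_sub, eval₂_X_pow, eval₂_C, sub_eq_zero] at h6
      exact h6
    refine ⟨AdjoinRoot (X ^ p - C t : R[X]), inferInstance, hD, inferInstance,
      AdjoinRoot.root (X ^ p - C t : R[X]), algebraMap R (AdjoinRoot (X ^ p - C t : R[X])) x,
      ?_, ?_, ?_⟩
    · have h6 := pres_root hp.pos hP
      unfold eqOf powT at h6 ⊢
      rw [Polynomial.map_add, Polynomial.map_prod, Polynomial.map_pow] at h6
      exact h6
    · simp only [ev_powT t x e0]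
      exact hV'
    · simp only [ev_powT t x e0]
      haveI := hD
      exact hI p r k R (ζ ^ (p ^ s)) t _ hp hζ' hprime hnd hN

end Pool.Agent.Y160.T8
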